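import Pool.Agent.Q94.RLE

/-!
# A point-independent radial approach with decreasing radii may fail almost everywhere

`f = ∏_n exp(-a_n (1 + z_n^{q_n})/(1 - z_n^{q_n}))`, arranged in blocks; the approach runs through
all admissible choices of levels in block `1`, then in block `2`, and so on. `|f| = 1` a.e. while
for a.e. point `|f(r_k e^{iθ})| ≤ 1/e` for infinitely many `k`.
-/

open Filter Topology MeasureTheory Q94.RL

theorem Pool.Agent.Results.MP_8d7c8e_an.Fails.result :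
    ∃ f : Ω → ℂ, MemHinf f ∧ ∃ r : ℕ → ℕ → ℝ,
      (∀ k n, 0 ≤ r k n ∧ r k n < 1) ∧ (∀ k, {n | r k n ≠ 0}.Finite) ∧
      (∀ n, Tendsto (fun k => r k n) atTop (𝓝 1)) ∧ (∀ k, Antitone (r k)) ∧
      ∀ᵐ θ ∂m, ¬ Tendsto (fun k => radial f (r k) θ) atTop (𝓝 (f θ)) :=
  main_indep
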